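import Pool.Agent.R90.IC.Defs
import Pool.Agent.R90.IC.BD
import Pool.Agent.R90.IC.IN
import Pool.Agent.R90.IC.TOP
import Pool.Agent.R90.IC.OP
import Pool.Agent.R90.IC.Fin

/-!
# MP_59c536_co, Q1: orientation classes of lines with quadratically many isotopy classes

We prove `f(n) ≥ (⌊n/2⌋ - 1)(⌈n/2⌉ - 1)`, so the quadratic upper bound is attained.
-/

open Set Topology

namespace Pool.Agent.Results.MP_59c536_co.QuadraticLower

/-- Vectors of Plücker coordinates `(π01, π02, π03, π12, π13, π23)`. -/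
abbrev P5 := EuclideanSpace ℝ (Fin 6)

/-- The Plücker coordinates `π_ij = a_i b_j - a_j b_i` of the oriented line through `a`, then `b`
(homogeneous coordinates in `ℝ⁴`). -/
noncomputable def plucker (a b : Fin 4 → ℝ) : P5 :=
  !₂[a 0 * b 1 - a 1 * b 0, a 0 * b 2 - a 2 * b 0, a 0 * b 3 - a 3 * b 0,
    a 1 * b 2 - a 2 * b 1, a 1 * b 3 - a 3 * b 1, a 2 * b 3 - a 3 * b 2]

/-- The Plücker form `π01 π23 - π02 π13 + π12 π03`. -/
def kl (x : P5) : ℝ := x 0 * x 5 - x 1 * x 4 + x 3 * x 2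

/-- The bilinear form whose sign is the relative orientation of two oriented lines:
`det [a; b; c; d]` in terms of the Plücker coordinates of the lines `ab` and `cd`
(see `rel_plucker`). -/
def rel (x y : P5) : ℝ :=
  x 0 * y 5 - x 1 * y 4 + x 2 * y 3 + x 3 * y 2 - x 4 * y 1 + x 5 * y 0

/-- The bilinear form is the determinant. -/
theorem rel_plucker (a b c d : Fin 4 → ℝ) :
    rel (plucker a b) (plucker c d) = Matrix.det (Matrix.of ![a, b, c, d]) := by
  rw [Matrix.det_succ_row_zero]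
  simp [rel, plucker, Matrix.det_fin_three, Fin.sum_univ_succ, Matrix.submatrix, Fin.succAbove]
  ring

/-- Plücker coordinates of lines satisfy the Plücker relation. -/
theorem kl_plucker (a b : Fin 4 → ℝ) : kl (plucker a b) = 0 := by
  simp [kl, plucker]; ring

/-- Families of `n` oriented lines, given by (nonzero) Plücker vectors. -/
def Conf (n : ℕ) : Set (Fin n → P5) := {L | ∀ i, L i ≠ 0 ∧ kl (L i) = 0}

/-- The orientation class of `σ` with respect to `L`: the oriented lines (points of the Plücker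
hypersurface in the sphere of rays) whose relative orientation to `L i` is `σ i` for all `i`. -/
def cls {ι : Type} (L : ι → P5) (σ : ι → SignType) : Set P5 :=
  {x | ‖x‖ = 1 ∧ kl x = 0 ∧ ∀ i, SignType.sign (rel x (L i)) = σ i}

/-- The number of isotopy classes (connected components) of an orientation class. -/
noncomputable def numClasses {n : ℕ} (L : Fin n → P5) (σ : Fin n → SignType) : ℕ∞ :=
  ENat.card (ConnectedComponents (cls L σ))

/-- No two of the lines meet (or are parallel). -/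
def Skew {n : ℕ} (L : Fin n → P5) : Prop := ∀ i j, i ≠ j → rel (L i) (L j) ≠ 0

/-- `f(n)`: the maximal number of isotopy classes of an orientation class of `n` pairwise
non-meeting lines. -/
noncomputable def f (n : ℕ) : ℕ∞ :=
  ⨆ L ∈ {L : Fin n → P5 | L ∈ Conf n ∧ Skew L}, ⨆ σ ∈ {σ : Fin n → SignType | ∀ i, σ i ≠ 0},
    numClasses L σ

/-- Whatever dense set `G` of configurations is regarded as being in general position, it contains
pairwise non-meeting lines with an orientation class of at least `(⌊n/2⌋ - 1)(⌈n/2⌉ - 1)` isotopy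
classes; in particular `f(n) ≥ n²/16` for `n ≥ 4`. -/
theorem result :
    (∀ (n : ℕ) (G : Set (Fin n → P5)), Conf n ⊆ closure (G ∩ Conf n) →
      ∃ L ∈ G ∩ Conf n, Skew L ∧
        (((n / 2 - 1) * ((n + 1) / 2 - 1) : ℕ) : ℕ∞) ≤ numClasses L (fun _ => -1)) ∧
    (∀ n : ℕ, 4 ≤ n → ((n ^ 2 : ℕ) : ℕ∞) ≤ 16 * f n) := by
  have h1 : ∀ (n : ℕ) (G : Set (Fin n → P5)), Conf n ⊆ closure (G ∩ Conf n) →
      ∃ L ∈ G ∩ Conf n, Skew L ∧
        (((n / 2 - 1) * ((n + 1) / 2 - 1) : ℕ) : ℕ∞) ≤ numClasses L (fun _ => -1) :=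
    R90.IC.fin_lem R90.IC.bd R90.IC.inn R90.IC.top_lem R90.IC.op
  refine ⟨h1, fun n hn => ?_⟩
  obtain ⟨L, hL, hs, hc⟩ := h1 n univ (by simpa using subset_closure)
  have hf : numClasses L (fun _ => -1) ≤ f n := by
    unfold f
    refine le_trans ?_ (le_iSup₂ (f := fun (L : Fin n → P5)
      (_ : L ∈ {L : Fin n → P5 | L ∈ Conf n ∧ Skew L}) =>
        ⨆ σ ∈ {σ : Fin n → SignType | ∀ i, σ i ≠ 0}, numClasses L σ) L ⟨hL.2, hs⟩)
    exact le_iSup₂ (f := fun (σ : Fin n → SignType)
      (_ : σ ∈ {σ : Fin n → SignType | ∀ i, σ i ≠ 0}) => numClasses L σ) (fun _ => -1)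
        (fun i => by show (-1 : SignType) ≠ 0; decide)
  have hnum : n ^ 2 ≤ 16 * ((n / 2 - 1) * ((n + 1) / 2 - 1)) := by
    obtain ⟨k, rfl | rfl⟩ := Nat.even_or_odd' n
    · have e1 : 2 * k / 2 = k := by omega
      have e2 : (2 * k + 1) / 2 = k := by omega
      rw [e1, e2]
      obtain ⟨l, rfl⟩ : ∃ l, k = l + 2 := ⟨k - 2, by omega⟩
      have : l + 2 - 1 = l + 1 := by omega
      rw [this]
      nlinarith
    · have e1 : (2 * k + 1) / 2 = k := by omega
      have e2 : (2 * k + 1 + 1) / 2 = k + 1 := by omega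
      rw [e1, e2]
      obtain ⟨l, rfl⟩ : ∃ l, k = l + 2 := ⟨k - 2, by omega⟩
      have e3 : l + 2 - 1 = l + 1 := by omega
      have e4 : l + 2 + 1 - 1 = l + 2 := by omega
      rw [e3, e4]
      nlinarith
  calc ((n ^ 2 : ℕ) : ℕ∞) ≤ ((16 * ((n / 2 - 1) * ((n + 1) / 2 - 1)) : ℕ) : ℕ∞) := by
        exact_mod_cast hnum
    _ = 16 * (((n / 2 - 1) * ((n + 1) / 2 - 1) : ℕ) : ℕ∞) := by push_cast; rfl
    _ ≤ 16 * numClasses L (fun _ => -1) := by gcongr
    _ ≤ 16 * f n := by gcongr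

end Pool.Agent.Results.MP_59c536_co.QuadraticLower
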